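import Mathlib

namespace Pool.Agent.Results.MP_e65cda_an.Good

noncomputable def Z (v : ℝ × ℝ) : ℝ × ℝ := (v.2, v.2 / v.1)
noncomputable def O (v : ℝ × ℝ) : ℝ × ℝ := (v.2, (1 + v.2) / v.1)
noncomputable def al (p a n : ℕ) : ℝ := if n % p < a then 0 else 1
noncomputable def S (p a : ℕ) (v : ℝ × ℝ) : ℕ → ℝ × ℝ
  | 0 => v
  | n + 1 => ((S p a v n).2, (al p a n + (S p a v n).2) / (S p a v n).1)

lemma al_nonneg (p a n : ℕ) : 0 ≤ al p a n := by unfold al; split_ifs <;> norm_num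

lemma S_pos (p a : ℕ) (v : ℝ × ℝ) (h1 : 0 < v.1) (h2 : 0 < v.2) (n : ℕ) :
    0 < (S p a v n).1 ∧ 0 < (S p a v n).2 := by
  induction n with
  | zero => exact ⟨h1, h2⟩
  | succ n ih =>
    refine ⟨ih.2, ?_⟩
    have := al_nonneg p a n; have := ih.1; have := ih.2
    simp only [S]; positivity

lemma Z6 (s : ℕ) (v : ℝ × ℝ) (h1 : 0 < v.1) (h2 : 0 < v.2) : Z^[6 * s] v = v := by
  rw [Function.iterate_mul]
  refine Function.iterate_fixed ?_ s
  obtain ⟨x, y⟩ := v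
  simp only at h1 h2
  simp only [Function.iterate_succ, Function.iterate_zero, Function.comp, id, Z, Prod.mk.injEq]
  constructor <;> field_simp

lemma O5 (s : ℕ) (v : ℝ × ℝ) (h1 : 0 < v.1) (h2 : 0 < v.2) : O^[5 * s] v = v := by
  rw [Function.iterate_mul]
  refine Function.iterate_fixed ?_ s
  obtain ⟨x, y⟩ := v
  simp only at h1 h2
  simp only [Function.iterate_succ, Function.iterate_zero, Function.comp, id, O, Prod.mk.injEq]
  constructor <;> field_simp <;> ring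

lemma runZ (a b m : ℕ) (hb : 0 < b) (v : ℝ × ℝ) (j : ℕ) (hj : j ≤ a) :
    S (a + b) a v ((a + b) * m + j) = Z^[j] (S (a + b) a v ((a + b) * m)) := by
  induction j with
  | zero => rfl
  | succ j ih =>
    have e : al (a + b) a ((a + b) * m + j) = 0 := by
      unfold al; rw [Nat.mul_add_mod, Nat.mod_eq_of_lt (by omega), if_pos (by omega)]
    rw [Function.iterate_succ_apply', ← ih (by omega), ← add_assoc, S, e, zero_add, Z]

lemma runO (a b m : ℕ) (v : ℝ × ℝ) (j : ℕ) (hj : j ≤ b) :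
    S (a + b) a v ((a + b) * m + a + j) = O^[j] (S (a + b) a v ((a + b) * m + a)) := by
  induction j with
  | zero => rfl
  | succ j ih =>
    have e : al (a + b) a ((a + b) * m + a + j) = 1 := by
      unfold al; rw [add_assoc, Nat.mul_add_mod, Nat.mod_eq_of_lt (by omega), if_neg (by omega)]
    rw [Function.iterate_succ_apply', ← ih (by omega), ← add_assoc, S, e, O]

lemma period (r s t m : ℕ) (v : ℝ × ℝ) (h1 : 0 < v.1) (h2 : 0 < v.2) (a b : ℕ)
    (ha : a = r + 6 * s) (hb : b = 1 + 5 * t) :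
    S (a + b) a v ((a + b) * (m + 1)) = O (Z^[r] (S (a + b) a v ((a + b) * m))) := by
  have p1 := S_pos (a + b) a v h1 h2 ((a + b) * m)
  have p2 := S_pos (a + b) a v h1 h2 ((a + b) * m + a)
  rw [show (a + b) * (m + 1) = (a + b) * m + a + b by ring, runO a b m v b le_rfl]
  have e1 : O^[b] (S (a + b) a v ((a + b) * m + a)) = O (S (a + b) a v ((a + b) * m + a)) := by
    generalize S (a + b) a v ((a + b) * m + a) = w at p2
    rw [hb, Function.iterate_add_apply, O5 t w p2.1 p2.2]; rfl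
  rw [e1, runZ a b m (by omega) v a le_rfl]
  generalize S (a + b) a v ((a + b) * m) = w at p1
  rw [ha, Function.iterate_add_apply, Z6 s w p1.1 p1.2]

lemma unb (a b : ℕ) (v : ℝ × ℝ) (h : ∀ m : ℕ, ∃ n, (2:ℝ) ^ m ≤ (S (a + b) a v n).2) :
    ¬ BddAbove (Set.range fun n => (S (a + b) a v n).1) := by
  rintro ⟨M, hM⟩
  obtain ⟨m, hm⟩ := pow_unbounded_of_one_lt M (by norm_num : (1:ℝ) < 2)
  obtain ⟨n, hn⟩ := h m
  have : (S (a + b) a v (n + 1)).1 ≤ M := hM ⟨n + 1, rfl⟩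
  simp only [S] at this
  linarith

lemma ex (p : ℕ) (hp : 3 ≤ p) (h4 : p ≠ 4) (h7 : p ≠ 7) : ∃ a b : ℕ, 0 < a ∧ 0 < b ∧ p = a + b ∧
    ∃ v : ℝ × ℝ, 0 < v.1 ∧ 0 < v.2 ∧ ¬ BddAbove (Set.range fun n => (S (a + b) a v n).1) := by
  have : ∃ s t, p = 2 + 6 * s + (1 + 5 * t) ∨ p = 5 + 6 * s + (1 + 5 * t) ∨
      p = 4 + 6 * s + (1 + 5 * t) := by
    by_cases h : 23 ≤ p
    · exact ⟨(p - 3) % 5, ((p - 3) - 6 * ((p - 3) % 5)) / 5, Or.inl (by omega)⟩
    · by_cases h3 : p % 3 = 0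
      · exact ⟨(p - 3) / 6, 0, by omega⟩
      · by_cases h5 : p % 3 = 2 ∧ 8 ≤ p
        · exact ⟨(p - 8) / 6, 1, by omega⟩
        · by_cases h6 : 13 ≤ p
          · exact ⟨(p - 13) / 6, 2, by omega⟩
          · exact ⟨0, (p - 5) / 5, by omega⟩
  obtain ⟨s, t, h | h | h⟩ := this
  · refine ⟨_, _, by omega, by omega, h, (1 / 2, 1), by norm_num, by norm_num, unb _ _ _ fun m =>
      ⟨(2 + 6 * s + (1 + 5 * t)) * (2 * m), ?_⟩⟩
    have : S (2 + 6 * s + (1 + 5 * t)) (2 + 6 * s) (1 / 2, 1) ((2 + 6 * s + (1 + 5 * t)) * (2 * m))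
        = (1 / 2, 2 ^ m) := by
      induction m with
      | zero => simp [S]
      | succ m ih =>
        rw [show 2 * (m + 1) = 2 * m + 1 + 1 by ring,
          period 2 s t _ _ (by norm_num) (by norm_num) _ _ rfl rfl,
          period 2 s t _ _ (by norm_num) (by norm_num) _ _ rfl rfl, ih]
        simp only [Function.iterate_succ, Function.iterate_zero, Function.comp, id, Z, O,
          Prod.mk.injEq]
        constructor <;> field_simp <;> ring
    rw [this]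
  · refine ⟨_, _, by omega, by omega, h, (1, 1), by norm_num, by norm_num, unb _ _ _ fun m =>
      ⟨(5 + 6 * s + (1 + 5 * t)) * m, ?_⟩⟩
    have : S (5 + 6 * s + (1 + 5 * t)) (5 + 6 * s) (1, 1) ((5 + 6 * s + (1 + 5 * t)) * m)
        = (1, 2 ^ m) := by
      induction m with
      | zero => simp [S]
      | succ m ih =>
        rw [period 5 s t _ _ (by norm_num) (by norm_num) _ _ rfl rfl, ih]
        simp only [Function.iterate_succ, Function.iterate_zero, Function.comp, id, Z, O,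
          Prod.mk.injEq]
        constructor <;> field_simp <;> ring
    rw [this]
  · have key : ∀ m : ℕ, ∃ x y : ℝ, 0 < x ∧ 2 ^ m * x ≤ 1 ∧ 2 ≤ y ∧
        S (4 + 6 * s + (1 + 5 * t)) (4 + 6 * s) (1, 2) ((4 + 6 * s + (1 + 5 * t)) * m) = (x, y) := by
      intro m
      induction m with
      | zero => exact ⟨1, 2, by norm_num, by norm_num, le_rfl, by simp [S]⟩
      | succ m ih =>
        obtain ⟨x, y, hx, h1, h2, e⟩ := ih
        have hy : 0 < y := by linarith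
        refine ⟨x / y, x + y, by positivity, ?_, by linarith, ?_⟩
        · rw [← mul_div_assoc, div_le_one hy, pow_succ]; nlinarith
        · rw [period 4 s t _ _ (by norm_num) (by norm_num) _ _ rfl rfl, e]
          simp only [Function.iterate_succ, Function.iterate_zero, Function.comp, id, Z, O,
            Prod.mk.injEq]
          constructor <;> field_simp <;> ring
    refine ⟨_, _, by omega, by omega, h, (1, 2), by norm_num, by norm_num, unb _ _ _ fun m =>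
      ⟨(4 + 6 * s + (1 + 5 * t)) * m + 1, ?_⟩⟩
    obtain ⟨x, y, hx, h1, h2, e⟩ := key m
    rw [runZ _ _ m (by omega) _ 1 (by omega), e]
    simp only [Function.iterate_one, Z]
    rw [le_div_iff₀ hx]; linarith

theorem main (p : ℕ) (hp : 3 ≤ p) (h4 : p ≠ 4) (h7 : p ≠ 7) :
    ∃ α : ℕ → ℝ, (∀ n, 0 ≤ α n) ∧ (∀ n, α (n + p) = α n) ∧
      (∀ q, 0 < q → q < p → ¬ ∀ n, α (n + q) = α n) ∧
      ∃ x : ℕ → ℝ, 0 < x 0 ∧ 0 < x 1 ∧ (∀ n, x (n + 2) = (α n + x (n + 1)) / x n) ∧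
        ¬ BddAbove (Set.range x) := by
  obtain ⟨a, b, ha, hb, rfl, v, h1, h2, hu⟩ := ex p hp h4 h7
  refine ⟨al (a + b) a, al_nonneg _ _, fun n => by simp [al], fun q q0 q1 h => ?_,
    fun n => (S (a + b) a v n).1, h1, h2, fun n => rfl, hu⟩
  have e1 := h (a + b - q)
  have e2 := h (a + b - q - 1)
  rw [show a + b - q + q = a + b by omega] at e1
  rw [show a + b - q - 1 + q = a + b - 1 by omega] at e2
  unfold al at e1 e2
  rw [Nat.mod_self, if_pos ha, Nat.mod_eq_of_lt (by omega)] at e1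
  rw [Nat.mod_eq_of_lt (by omega), if_neg (by omega), Nat.mod_eq_of_lt (by omega)] at e2
  split_ifs at e1 e2 <;> first | omega | exact one_ne_zero e2 | exact zero_ne_one e1 | exact one_ne_zero e1

noncomputable def a7 (n : ℕ) : ℝ := if n % 7 = 1 ∨ n % 7 = 4 ∨ n % 7 = 6 then 1 else 0
noncomputable def S7 : ℕ → ℝ × ℝ
  | 0 => (1 / 8, 4)
  | n + 1 => ((S7 n).2, (a7 n + (S7 n).2) / (S7 n).1)

lemma T7 (m : ℕ) (x y : ℝ) (hx : 0 < x) (hy : 0 < y) (h : S7 (7 * m) = (x, y)) :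
    S7 (7 * (m + 1)) = (y ^ 2 / x, (y ^ 2 + x) / (x * y)) := by
  have e0 : a7 (7 * m) = 0 := if_neg (by omega)
  have e1 : a7 (7 * m + 1) = 1 := if_pos (by omega)
  have e2 : a7 (7 * m + 1 + 1) = 0 := if_neg (by omega)
  have e3 : a7 (7 * m + 1 + 1 + 1) = 0 := if_neg (by omega)
  have e4 : a7 (7 * m + 1 + 1 + 1 + 1) = 1 := if_pos (by omega)
  have e5 : a7 (7 * m + 1 + 1 + 1 + 1 + 1) = 0 := if_neg (by omega)
  have e6 : a7 (7 * m + 1 + 1 + 1 + 1 + 1 + 1) = 1 := if_pos (by omega)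
  rw [show 7 * (m + 1) = 7 * m + 1 + 1 + 1 + 1 + 1 + 1 + 1 by ring]
  simp only [S7, h, e0, e1, e2, e3, e4, e5, e6, zero_add, Prod.mk.injEq]
  constructor <;> field_simp <;> ring

lemma key7 (m : ℕ) : ∃ x y : ℝ, 0 < x ∧ 2 ^ m * x ≤ 1 / 8 ∧ x ≤ 1 / 8 ∧ 2 ≤ y * (1 - 4 * x) ∧
    S7 (7 * (3 * m)) = (x, y) := by
  induction m with
  | zero => exact ⟨1 / 8, 4, by norm_num, by norm_num, le_rfl, by norm_num, rfl⟩
  | succ m ih =>
    obtain ⟨x, y, hx, h1, h2, h3, e⟩ := ih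
    have hy2 : 2 ≤ y := by nlinarith
    have hy : 0 < y := by linarith
    have t1 := T7 _ _ _ hx hy e
    have t2 := T7 _ _ _ (by positivity) (by positivity) t1
    set D := 1 + x / y ^ 2 + x * (y ^ 2 / (y ^ 2 + x)) with hD
    set E := 1 + x * (y ^ 2 / (y ^ 2 + x)) ^ 2 with hE
    have t2' : S7 (7 * (3 * m + 1 + 1)) = ((y ^ 2 + x) ^ 2 / (x * y ^ 4), D / y) := by
      rw [t2, hD, Prod.mk.injEq]; constructor <;> field_simp <;> ring
    have hD0 : 0 < D := by positivity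
    have t3 := T7 _ _ _ (by positivity) (by positivity) t2'
    have q1 : (D / y) ^ 2 / ((y ^ 2 + x) ^ 2 / (x * y ^ 4)) = x * (E ^ 2 / y ^ 2) := by
      rw [hD, hE]; field_simp
    have q2 : ((D / y) ^ 2 + (y ^ 2 + x) ^ 2 / (x * y ^ 4)) / ((y ^ 2 + x) ^ 2 / (x * y ^ 4) * (D / y))
        = (x * (E ^ 2 / y ^ 2) + 1) * (y / D) := by
      rw [← q1]; field_simp
    have r1 : y ^ 2 / (y ^ 2 + x) ≤ 1 := by rw [div_le_one (by positivity)]; linarith
    have r0 : 0 ≤ y ^ 2 / (y ^ 2 + x) := by positivity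
    have hE0 : 0 < E := by positivity
    have hE1 : E ≤ 9 / 8 := by
      have : (y ^ 2 / (y ^ 2 + x)) ^ 2 ≤ 1 := pow_le_one₀ r0 r1
      rw [hE]; nlinarith
    have hE2 : E ^ 2 / y ^ 2 ≤ 1 / 2 := by rw [div_le_iff₀ (by positivity)]; nlinarith
    have hE3 : 0 < E ^ 2 / y ^ 2 := by positivity
    have hD1 : D ≤ 1 + 2 * x := by
      have : x / y ^ 2 ≤ x := div_le_self hx.le (by nlinarith)
      rw [hD]; nlinarith
    have hX : x * (E ^ 2 / y ^ 2) ≤ x / 2 := by nlinarith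
    have hX0 : 0 < x * (E ^ 2 / y ^ 2) := by positivity
    have hY : y * (1 - 4 * x) ≤ y / D * (1 - 2 * x) := by
      rw [div_mul_eq_mul_div, le_div_iff₀ hD0]
      have : (1 - 4 * x) * D ≤ 1 - 2 * x := by nlinarith
      nlinarith
    have hyD : 0 < y / D := by positivity
    refine ⟨_, _, hX0, ?_, by linarith, ?_, by
      rw [show 3 * (m + 1) = 3 * m + 1 + 1 + 1 by ring, t3, q1, q2]⟩
    · rw [pow_succ]; nlinarith [pow_pos (two_pos : (0:ℝ) < 2) m]
    · generalize x * (E ^ 2 / y ^ 2) = X at hX hX0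
      generalize y / D = Y at hY hyD
      have w1 : Y * (1 - 2 * x) ≤ Y * (1 - 4 * X) := by nlinarith
      nlinarith [mul_pos (mul_pos hX0 hyD) (by linarith : 0 < 1 - 4 * X)]

theorem main2 (p : ℕ) (hp : 3 ≤ p) (h4 : p ≠ 4) :
    ∃ α : ℕ → ℝ, (∀ n, 0 ≤ α n) ∧ (∀ n, α (n + p) = α n) ∧
      (∀ q, 0 < q → q < p → ¬ ∀ n, α (n + q) = α n) ∧
      ∃ x : ℕ → ℝ, 0 < x 0 ∧ 0 < x 1 ∧ (∀ n, x (n + 2) = (α n + x (n + 1)) / x n) ∧
        ¬ BddAbove (Set.range x) := by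
  by_cases h7 : p = 7
  swap
  · exact main p hp h4 h7
  subst h7
  refine ⟨a7, fun n => by unfold a7; split_ifs <;> norm_num, fun n => by simp [a7],
    fun q q0 q1 h => ?_, fun n => (S7 n).1, by norm_num [S7], by norm_num [S7], fun n => rfl, ?_⟩
  · have e0 := h 0
    have e1 := h 1
    have e4 := h 4
    have e6 := h 6
    interval_cases q <;> simp [a7] at e0 e1 e4 e6
  · rintro ⟨M, hM⟩
    obtain ⟨m, hm⟩ := pow_unbounded_of_one_lt M (by norm_num : (1:ℝ) < 2)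
    obtain ⟨x, y, hx, h1, h2, h3, e⟩ := key7 m
    have : (S7 (7 * (3 * m) + 1 + 1)).1 ≤ M := hM ⟨_, rfl⟩
    have e0 : a7 (7 * (3 * m)) = 0 := if_neg (by omega)
    simp only [S7, e, e0, zero_add] at this
    rw [div_le_iff₀ hx] at this
    nlinarith [mul_lt_mul_of_pos_right hm hx]

lemma step4 (u e0 e1 e2 e3 e4 e5 e6 e7 e8 e9 : ℝ) (hu : 0 < u) (hu1 : u ≤ 1 / 1000)
    (p0 : 0 < e0) (p2 : 0 < e2) (p3 : 0 < e3) (p4 : 0 < e4) (p5 : 0 < e5) (p6 : 0 < e6)
    (p7 : 0 < e7) (p8 : 0 < e8) (p9 : 0 < e9) (hL : 1 ≤ e0 * u) (c1 : 1 / 5 ≤ e1) (c2 : e1 ≤ 1 / 2)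
    (r0 : e2 * (e1 ^ 2 * e0) = 1 / 4 + e1) (r1 : e3 * (e2 ^ 2 * e1) = 2 + e2)
    (r2 : e4 * (e3 ^ 2 * e2) = 1 / 4 + e3) (r3 : e5 * (e4 ^ 2 * e3) = 2 + e4)
    (r4 : e6 * (e5 ^ 2 * e4) = 1 / 4 + e5) (r5 : e7 * (e6 ^ 2 * e5) = 2 + e6)
    (r6 : e8 * (e7 ^ 2 * e6) = 1 / 4 + e7) (r7 : e9 * (e8 ^ 2 * e7) = 2 + e8) :
    7 / 5 ≤ e8 * u ∧ e1 - 30 * u ≤ e9 ∧ e9 ≤ e1 + 30 * u := by
  have p1 : 0 < e1 := by linarith
  have a1 : e2 * e1 * e0 ≤ 9 / 4 := by
    refine le_of_mul_le_mul_right ?_ p1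
    nlinarith
  have a2 : e2 * e1 ≤ 9 / 4 * u := by
    nlinarith [mul_le_mul_of_nonneg_left hL (mul_pos p2 p1).le, mul_le_mul_of_nonneg_right a1 hu.le]
  have a3 : e2 ≤ 12 * u := by nlinarith
  set A := e3 * e2 * (e2 * e1) with hA
  have A1 : A = 2 + e2 := by rw [hA, ← r1]; ring
  obtain ⟨d3, hd3⟩ : ∃ d, d = 1 / (4 * e3) := ⟨_, rfl⟩
  have d30 : 0 < d3 := by rw [hd3]; positivity
  have d3e : d3 * e3 = 1 / 4 := by rw [hd3]; field_simp
  have d31 : d3 ≤ u / 100 := by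
    have h : 2 * d3 ≤ 1 / 4 * (e2 * (e2 * e1)) := by
      have : d3 * A = 1 / 4 * (e2 * (e2 * e1)) := by rw [hA, ← d3e]; ring
      nlinarith [mul_pos d30 p2]
    have : e2 * (e2 * e1) ≤ 12 * u * (9 / 4 * u) := mul_le_mul a3 a2 (by positivity) (by positivity)
    nlinarith
  have b4 : e4 * e3 * e2 = 1 + d3 := by
    refine mul_right_cancel₀ p3.ne' ?_
    linear_combination r2 - d3e
  have b4' : e4 * (2 + e2) = (1 + d3) * (e2 * e1) := by rw [← A1, hA, ← b4]; ring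
  have a4 : e4 ≤ 6 / 5 * u := by
    have : (1 + d3) * (e2 * e1) ≤ (1 + 1 / 100) * (9 / 4 * u) :=
      mul_le_mul (by linarith) a2 (by positivity) (by positivity)
    nlinarith [mul_pos p4 p2]
  have b5 : e5 * e1 * (1 + d3) ^ 2 = (2 + e2) * (2 + e4) := by
    rw [← b4, ← r1, ← r3]; ring
  have q3 : (1 + d3) ^ 2 ≤ 1 + u / 40 := by nlinarith
  have q3' : 1 ≤ (1 + d3) ^ 2 := by nlinarith
  have z0 := mul_pos p5 p1
  have z1 : e5 * e1 ≤ 4 + 28 * u := by
    have : (2 + e2) * (2 + e4) ≤ (2 + 12 * u) * (2 + 6 / 5 * u) :=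
      mul_le_mul (by linarith) (by linarith) (by positivity) (by positivity)
    nlinarith
  have z2 : 4 - u ≤ e5 * e1 := by
    have h1 : 4 ≤ e5 * e1 * (1 + u / 40) := by
      nlinarith [mul_le_mul_of_nonneg_left q3 z0.le, mul_pos p2 p4]
    nlinarith
  have a5 : e5 ≤ 21 := by nlinarith
  have a5' : 79 / 10 ≤ e5 := by nlinarith
  have a6 : 1 ≤ e6 * e5 * e4 := by
    refine le_of_mul_le_mul_right ?_ p5
    nlinarith
  obtain ⟨d6, hd6⟩ : ∃ d, d = 2 / e6 := ⟨_, rfl⟩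
  have d60 : 0 < d6 := by rw [hd6]; positivity
  have d6e : d6 * e6 = 2 := by rw [hd6]; field_simp
  have d61 : d6 ≤ 51 * u := by
    have h1 : d6 * (e6 * e5 * e4) = 2 * (e5 * e4) := by rw [← d6e]; ring
    have h2 : e5 * e4 ≤ 21 * (6 / 5 * u) := mul_le_mul a5 a4 p4.le (by norm_num)
    nlinarith [mul_le_mul_of_nonneg_left a6 d60.le]
  have b7 : e7 * e6 * e5 = 1 + d6 := by
    refine mul_right_cancel₀ p6.ne' ?_
    linear_combination r5 - d6e
  have a7 : e7 ≤ 13 / 10 * u := by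
    have h1 : e7 * (e6 * e5 * e4) = (1 + d6) * e4 := by rw [← b7]; ring
    have h2 : (1 + d6) * e4 ≤ (1 + 51 / 1000) * (6 / 5 * u) :=
      mul_le_mul (by linarith) a4 p4.le (by norm_num)
    nlinarith [mul_le_mul_of_nonneg_left a6 p7.le]
  have b8 : e8 * e7 * (1 + d6) = (1 / 4 + e7) * e5 := by rw [← b7, ← r6]; ring
  have y0 := mul_pos p8 p7
  have a8 : 7 / 5 ≤ e8 * u := by
    have h1 : e8 * e7 * (1 + d6) ≤ e8 * (13 / 10 * u) * (1 + 51 / 1000) :=
      mul_le_mul (mul_le_mul_of_nonneg_left a7 p8.le) (by linarith) (by positivity) (by positivity)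
    nlinarith [mul_pos p7 p5]
  obtain ⟨d8, hd8⟩ : ∃ d, d = 2 / e8 := ⟨_, rfl⟩
  have d80 : 0 < d8 := by rw [hd8]; positivity
  have d8e : d8 * e8 = 2 := by rw [hd8]; field_simp
  have d81 : d8 ≤ 2 * u := by
    have h1 : d8 * (e8 * u) = 2 * u := by rw [← d8e]; ring
    nlinarith [mul_le_mul_of_nonneg_left a8 d80.le]
  have b9 : e9 * e8 * e7 = 1 + d8 := by
    refine mul_right_cancel₀ p8.ne' ?_
    linear_combination r7 - d8e
  have b10 : e9 * ((1 / 4 + e7) * (e5 * e1)) = (1 + d8) * (1 + d6) * e1 := by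
    rw [← b9]; linear_combination (-e9 * e1) * b8
  have w1 : (1 + d8) * (1 + d6) ≤ 1 + 54 * u := by
    have : d8 * d6 ≤ 2 * u * (51 * u) := mul_le_mul d81 d61 d60.le (by positivity)
    nlinarith
  have w2 : 1 ≤ (1 + d8) * (1 + d6) := by nlinarith [mul_pos d80 d60]
  have w3 : 1 - u / 4 ≤ (1 / 4 + e7) * (e5 * e1) := by nlinarith [mul_pos p7 z0]
  have w4 : (1 / 4 + e7) * (e5 * e1) ≤ 1 + 13 * u := by
    have : (1 / 4 + e7) * (e5 * e1) ≤ (1 / 4 + 13 / 10 * u) * (4 + 28 * u) :=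
      mul_le_mul (by linarith) z1 z0.le (by positivity)
    nlinarith
  have v1 : e9 * (1 - u / 4) ≤ (1 + 54 * u) * e1 := by
    nlinarith [mul_le_mul_of_nonneg_left w3 p9.le, mul_le_mul_of_nonneg_right w1 p1.le]
  have v2 : e1 ≤ e9 * (1 + 13 * u) := by
    nlinarith [mul_le_mul_of_nonneg_left w4 p9.le, mul_le_mul_of_nonneg_right w2 p1.le]
  have v3 : e9 ≤ 1 := by nlinarith
  refine ⟨a8, by nlinarith, by nlinarith⟩

noncomputable def A4 (n : ℕ) : ℝ := if n % 2 = 0 then 1 / 4 else 2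
noncomputable def E4 : ℕ → ℝ
  | 0 => 1000
  | 1 => 7 / 20
  | n + 2 => (A4 n + E4 (n + 1)) / (E4 (n + 1) ^ 2 * E4 n)

lemma A4_pos (n : ℕ) : 0 < A4 n := by unfold A4; split_ifs <;> norm_num

lemma E4_pos (n : ℕ) : 0 < E4 n ∧ 0 < E4 (n + 1) := by
  induction n with
  | zero => norm_num [E4]
  | succ n ih =>
    refine ⟨ih.2, ?_⟩
    have := ih.1; have := ih.2; have := A4_pos n
    rw [E4]; positivity

lemma E4_rec (n : ℕ) : E4 (n + 2) * (E4 (n + 1) ^ 2 * E4 n) = A4 n + E4 (n + 1) := by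
  have := (E4_pos n).1; have := (E4_pos n).2
  rw [E4]; field_simp

lemma key4 (m : ℕ) : 1 ≤ E4 (8 * m) * ((5 / 7) ^ m / 1000) ∧
    1 / 5 + 110 * ((5 / 7) ^ m / 1000) ≤ E4 (8 * m + 1) ∧
    E4 (8 * m + 1) ≤ 1 / 2 - 110 * ((5 / 7) ^ m / 1000) := by
  induction m with
  | zero => norm_num [E4]
  | succ m ih =>
    obtain ⟨h1, h2, h3⟩ := ih
    have hu : (0:ℝ) < (5 / 7) ^ m / 1000 := by positivity
    have hu1 : (5 / 7 : ℝ) ^ m / 1000 ≤ 1 / 1000 :=
      div_le_div_of_nonneg_right (pow_le_one₀ (by norm_num) (by norm_num)) (by norm_num)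
    have ev : ∀ j, j % 2 = 0 → A4 (8 * m + j) = 1 / 4 := fun j hj => if_pos (by omega)
    have od : ∀ j, j % 2 = 1 → A4 (8 * m + j) = 2 := fun j hj => if_neg (by omega)
    have := step4 _ (E4 (8 * m)) (E4 (8 * m + 1)) (E4 (8 * m + 2)) (E4 (8 * m + 3)) (E4 (8 * m + 4))
      (E4 (8 * m + 5)) (E4 (8 * m + 6)) (E4 (8 * m + 7)) (E4 (8 * m + 8)) (E4 (8 * m + 9)) hu hu1
      (E4_pos _).1 (E4_pos _).1 (E4_pos _).1 (E4_pos _).1 (E4_pos _).1 (E4_pos _).1 (E4_pos _).1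
      (E4_pos _).1 (E4_pos _).1 h1 (by linarith) (by linarith)
      (ev 0 rfl ▸ E4_rec (8 * m + 0)) (od 1 rfl ▸ E4_rec (8 * m + 1)) (ev 2 rfl ▸ E4_rec (8 * m + 2))
      (od 3 rfl ▸ E4_rec (8 * m + 3)) (ev 4 rfl ▸ E4_rec (8 * m + 4)) (od 5 rfl ▸ E4_rec (8 * m + 5))
      (ev 6 rfl ▸ E4_rec (8 * m + 6)) (od 7 rfl ▸ E4_rec (8 * m + 7))
    obtain ⟨g1, g2, g3⟩ := this
    rw [show 8 * (m + 1) = 8 * m + 8 by ring, show 8 * m + 8 + 1 = 8 * m + 9 by ring, pow_succ]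
    refine ⟨by linarith, by linarith, by linarith⟩

theorem four : ∃ α : ℕ → ℝ, (∀ n, 0 ≤ α n) ∧ (∀ n, α (n + 4) = α n) ∧
      (∀ q, 0 < q → q < 4 → ¬ ∀ n, α (n + q) = α n) ∧
      ∃ x : ℕ → ℝ, 0 < x 0 ∧ 0 < x 1 ∧ (∀ n, x (n + 2) = (α n + x (n + 1)) / x n) ∧
        ¬ BddAbove (Set.range x) := by
  refine ⟨fun n => if n % 2 = 0 then 0 else A4 (n / 2), fun n => ?_, fun n => ?_,
    fun q q0 q1 h => ?_, fun n => if n % 2 = 0 then E4 (n / 2) else E4 (n / 2) * E4 (n / 2 + 1),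
    by norm_num [E4], by norm_num [E4], fun n => ?_, ?_⟩
  · have := A4_pos (n / 2); simp only; split_ifs <;> linarith
  · simp only [A4, show (n + 4) % 2 = n % 2 by omega, show (n + 4) / 2 % 2 = n / 2 % 2 by omega]
  · have e1 := h 1
    interval_cases q <;> norm_num [A4] at e1
  · obtain ⟨k, rfl | rfl⟩ := Nat.even_or_odd' n
    · have := (E4_pos k).1
      simp only [show (2 * k + 2) % 2 = 0 by omega, show (2 * k) % 2 = 0 by omega,
        show (2 * k + 1) % 2 = 1 by omega, show (2 * k + 2) / 2 = k + 1 by omega,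
        show (2 * k + 1) / 2 = k by omega, show (2 * k) / 2 = k by omega, if_true, one_ne_zero, if_false]
      field_simp; ring
    · have := (E4_pos k).1; have := (E4_pos k).2
      simp only [show (2 * k + 1 + 2) % 2 = 1 by omega, show (2 * k + 1 + 1) % 2 = 0 by omega,
        show (2 * k + 1) % 2 = 1 by omega, show (2 * k + 1 + 2) / 2 = k + 1 by omega,
        show (2 * k + 1) / 2 = k by omega, show (2 * k + 1 + 1) / 2 = k + 1 by omega, if_true,
        one_ne_zero, if_false]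
      rw [eq_div_iff (by positivity), ← E4_rec k]; ring
  · rintro ⟨M, hM⟩
    have hM0 : E4 0 ≤ M := by simpa using hM ⟨0, rfl⟩
    have hM1 : 0 < M := (E4_pos 0).1.trans_le hM0
    obtain ⟨m, hm⟩ := exists_pow_lt_of_lt_one (one_div_pos.2 hM1) (by norm_num : (5 / 7 : ℝ) < 1)
    have h := hM ⟨2 * (8 * m), rfl⟩
    simp only [show (2 * (8 * m)) % 2 = 0 by omega, show (2 * (8 * m)) / 2 = 8 * m by omega,
      if_true] at h
    rw [lt_div_iff₀ hM1] at hm
    have h1 := (key4 m).1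
    have hu : (0:ℝ) < (5 / 7) ^ m := by positivity
    nlinarith [mul_le_mul_of_nonneg_right h hu.le]

noncomputable def V (a b x y : ℝ) : ℝ :=
  a * x + b * y + b * x / y + a * y / x + (b ^ 2 + a) / y + (b + a ^ 2) / x + a * b / (x * y)

theorem two (α : ℕ → ℝ) (h0 : ∀ n, 0 ≤ α n) (hper : ∀ n, α (n + 2) = α n)
    (hne : ¬ ∀ n, α (n + 1) = α n) (x : ℕ → ℝ) (x0 : 0 < x 0) (x1 : 0 < x 1)
    (hx : ∀ n, x (n + 2) = (α n + x (n + 1)) / x n) : BddAbove (Set.range x) := by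
  have hp : ∀ n, 0 < x n ∧ 0 < x (n + 1) := by
    intro n
    induction n with
    | zero => exact ⟨x0, x1⟩
    | succ n ih =>
      refine ⟨ih.2, ?_⟩
      have := ih.1; have := ih.2; have := h0 n
      rw [hx]; positivity
  set K := V (α 0) (α 1) (x 0) (x 1) with hK
  have inv : ∀ n, V (α n) (α (n + 1)) (x n) (x (n + 1)) = K := by
    intro n
    induction n with
    | zero => rfl
    | succ n ih =>
      have := (hp n).1; have := (hp n).2; have := h0 n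
      rw [← ih, hper, hx]; unfold V; field_simp; ring
  have b1 : ∀ n, α n * x n ≤ K ∧ α (n + 1) * x n ≤ K * x (n + 1) := by
    intro n
    have p1 := (hp n).1; have p2 := (hp n).2; have a1 := h0 n; have a2 := h0 (n + 1)
    have e := inv n
    unfold V at e
    have t1 : 0 ≤ α n * x n := by positivity
    have t2 : 0 ≤ α (n + 1) * x (n + 1) := by positivity
    have t3 : 0 ≤ α (n + 1) * x n / x (n + 1) := by positivity
    have t4 : 0 ≤ α n * x (n + 1) / x n := by positivity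
    have t5 : 0 ≤ (α (n + 1) ^ 2 + α n) / x (n + 1) := by positivity
    have t6 : 0 ≤ (α (n + 1) + α n ^ 2) / x n := by positivity
    have t7 : 0 ≤ α n * α (n + 1) / (x n * x (n + 1)) := by positivity
    exact ⟨by linarith, (div_le_iff₀ p2).1 (by linarith)⟩
  have hK0 : 0 ≤ K := le_trans (mul_nonneg (h0 0) x0.le) (b1 0).1
  have hP : Function.Periodic α 2 := hper
  obtain ⟨j, hj⟩ : ∃ j, 0 < α j := by
    by_contra h
    push Not at h
    exact hne fun n => by rw [le_antisymm (h _) (h0 _), le_antisymm (h n) (h0 n)]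
  refine ⟨K / α j + K * (K / α j) / α j, ?_⟩
  rintro _ ⟨n, rfl⟩
  have u1 : 0 ≤ K / α j := by positivity
  have u2 : 0 ≤ K * (K / α j) / α j := by positivity
  by_cases h : n % 2 = j % 2
  · have e : α n = α j := by rw [← hP.map_mod_nat n, h, hP.map_mod_nat]
    have : x n ≤ K / α j := by rw [le_div_iff₀ hj, ← e, mul_comm]; exact (b1 n).1
    linarith
  · have e : α (n + 1) = α j := by
      rw [← hP.map_mod_nat (n + 1), show (n + 1) % 2 = j % 2 by omega, hP.map_mod_nat]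
    have s1 : x (n + 1) ≤ K / α j := by rw [le_div_iff₀ hj, ← e, mul_comm]; exact (b1 (n + 1)).1
    have : x n ≤ K * (K / α j) / α j := by
      rw [le_div_iff₀ hj, mul_comm]
      have := (b1 n).2
      rw [e] at this
      exact this.trans (mul_le_mul_of_nonneg_left s1 hK0)
    linarith

/-- `p ≥ 2` is good exactly when `p = 2`.  Here `x n` stands for `x_{n-1}`. -/
theorem result (p : ℕ) (hp : 2 ≤ p) :
    (∀ α : ℕ → ℝ, (∀ n, 0 ≤ α n) → (∀ n, α (n + p) = α n) →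
      (∀ q, 0 < q → q < p → ¬ ∀ n, α (n + q) = α n) →
      ∀ x : ℕ → ℝ, 0 < x 0 → 0 < x 1 → (∀ n, x (n + 2) = (α n + x (n + 1)) / x n) →
        BddAbove (Set.range x)) ↔ p = 2 := by
  constructor
  · intro h
    by_contra h2
    by_cases h4 : p = 4
    · subst h4
      obtain ⟨α, a1, a2, a3, x, x0, x1, x2, x3⟩ := four
      exact x3 (h α a1 a2 a3 x x0 x1 x2)
    · obtain ⟨α, a1, a2, a3, x, x0, x1, x2, x3⟩ := main2 p (by omega) h4
      exact x3 (h α a1 a2 a3 x x0 x1 x2)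
  · rintro rfl α a1 a2 a3 x x0 x1 x2
    exact two α a1 a2 (a3 1 one_pos one_lt_two) x x0 x1 x2

end Pool.Agent.Results.MP_e65cda_an.Good
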